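import Pool.Agent.Lib_helper54.FD.Main

set_option autoImplicit false

/-!
The flat dimensions of the Banach spaces of infinite projective dimension are exactly
`0, 1, 2, …` and `∞`.

Sketch. Let `DualInj` be the class of spaces with injective dual; it contains the `𝓛₁`-spaces
(`FD.T1`) and it is closed under kernels of surjections, products and retracts.

*Blocks* (`FD.Block`). For `R` and a finite-dimensional normed space `Y` there is a Cayley graph
`G` of `F_p ^ (2 R)` with the generators `s (1, t, …, t ^ (2 R - 1))` whose averaging operator is
a contraction with constant `1 / 2` on the mean-zero functions in `L²(G; Y)` (`FD.T4a`: the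
eigenvalue of a character is at most (number of roots of a polynomial) / p, so it is as small as we
like for large `p`). By the Mazur map `y ↦ y / ‖y‖ ^ (1 / 2)` (`FD.T4b`) the operator
`T : ℓ¹(G; Y) → ℓ¹(G × S; Y) ⊕ Y`, `T f = ((f (x + g_s) - f (x)) / |S|, ∑ f)`, is bounded below by
an absolute constant, which does not depend on `Y` and `R`. But every left inverse of the scalar
operator `T` has norm at least `R / 2`: average `(s T φ_y)(y)` over `y`, where `φ_y` is the
truncated distance function `min (R, d (·, y))` minus its mean.

*Complexes* (`FD.Cone`, `FD.Induct`). Given a finite complex `P_m → ⋯ → P_0` of finite `ℓ₁ⁿ`, exact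
with constant `C_m`, put `Y = P_0 / im` and let the next complex be the cone of
`T : ℓ¹(V; P) → ℓ¹(W; P)`. It is exact with a constant `C_{m+1}` which does not depend on `R`,
while the left inverses of its last map have norm at least `R / (m 2 ^ m)`; the certificate for
this is the product of the previous certificate with the functions `φ_y`.

*Spaces* (`FD.Assembly`). Let `X_m` be the `ℓ¹`-sum over `R` of the cokernels of these complexes
of length `m`. It has a resolution of length `m` by spaces `ℓ¹(S_i)`. If its flat dimension were
less than `m`, then, by dimension shifting, the adjoint of the last map of the resolution would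
have a bounded right inverse, and its blocks would give left inverses of the last maps of the
finite complexes with norms bounded independently of `R`, a contradiction.

*Conclusion* (`FD.Main`). The space `F = L¹[0, 1]` is an `𝓛₁`-space (`FD.T2`), is not a retract of
any `ℓ¹(S)` (`FD.T3`) and hence has infinite projective dimension. So `X_m ⊕ F` has flat
dimension `m` and infinite projective dimension, and if `X_∞` is the `ℓ¹`-sum of all `X_m`, then
`X_∞ ⊕ F` has infinite flat and projective dimension.
-/

namespace Pool.Agent.Results.MP_c829d7_an.AllDimensions

open Pool.Agent.Lib_helper54.FD

/-- The set of flat dimensions of Banach spaces of infinite projective dimension is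
`{0, 1, 2, …} ∪ {∞}`. -/
theorem result (𝕜 : Type) [RCLike 𝕜] :
    {n : ℕ∞ | ∃ X : Ban 𝕜, pd X = ⊤ ∧ fd X = n} = Set.univ :=
  all_dims 𝕜

end Pool.Agent.Results.MP_c829d7_an.AllDimensions
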